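import Pool.Agent.V1197.CW.Conj
import Pool.Agent.V1197.CW.Hardy

set_option autoImplicit false

/-!
# A complex symmetric weighted composition operator whose symbol is not linear fractional

The Hardy space is modelled by square-summable Taylor coefficients; `IsHardySpace` records that this
model is exactly the Hardy space of the problem, with its norm.
-/

namespace Pool.Agent.Results.MP_d61ac0_an.SquareRootSymbol

open Set Metric
open scoped ComplexConjugate
open Pool.Agent.V1197.CW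

/-- Square-summable complex sequences (Taylor coefficients of the functions of the Hardy space). -/
abbrev Hardy : Type := lp (fun _ : ℕ => ℂ) 2

/-- The holomorphic function on the disc with Taylor coefficients `a`. -/
noncomputable def toFun (a : Hardy) (z : ℂ) : ℂ := ∑' n, a n * z ^ n

/-- The mean of `|f|^2` over the circle of radius `r`. -/
noncomputable def mean (f : ℂ → ℂ) (r : ℝ) : ℝ :=
  1 / (2 * Real.pi) * ∫ θ in (0 : ℝ)..(2 * Real.pi), ‖f ((r : ℂ) * Complex.exp ((θ : ℂ) * Complex.I))‖ ^ 2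

/-- `a ↦ toFun a` identifies `Hardy` with the space of holomorphic functions `f` on the disc for which
the supremum of the means `mean f r`, `0 < r < 1`, is finite, this supremum being the squared norm. -/
def IsHardySpace : Prop :=
  (∀ a : Hardy, DifferentiableOn ℂ (toFun a) (ball 0 1) ∧ IsLUB (mean (toFun a) '' Ioo 0 1) (‖a‖ ^ 2)) ∧
  (∀ f : ℂ → ℂ, DifferentiableOn ℂ f (ball 0 1) → BddAbove (mean f '' Ioo 0 1) →
    ∃ a : Hardy, EqOn f (toFun a) (ball 0 1))

/-- Bounded linear operators on the Hardy space. -/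
abbrev Op : Type := Hardy →L[ℂ] Hardy

/-- The inner product of the Hardy space. -/
noncomputable def ip (x y : Hardy) : ℂ := inner ℂ x y

/-- `V` is the adjoint of `W`. -/
def IsAdjointOf (V W : Op) : Prop := ∀ x y, ip (V x) y = ip x (W y)

/-- `W` is the weighted composition operator `f ↦ ψ · (f ∘ φ)`. -/
def IsWCO (ψ φ : ℂ → ℂ) (W : Op) : Prop :=
  ∀ f : Hardy, ∀ z ∈ ball (0 : ℂ) 1, toFun (W f) z = ψ z * toFun f (φ z)

/-- A conjugation: conjugate-linear, isometric and involutive. -/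
structure IsConjugation (C : Hardy → Hardy) : Prop where
  add : ∀ x y, C (x + y) = C x + C y
  smul : ∀ (c : ℂ) (x : Hardy), C (c • x) = conj c • C x
  norm : ∀ x, ‖C x‖ = ‖x‖
  invol : ∀ x, C (C x) = x

/-- `C W = V C` for some conjugation `C`, with `V` the adjoint of `W`. -/
def ComplexSymmetric (W : Op) : Prop :=
  ∃ V : Op, IsAdjointOf V W ∧ ∃ C : Hardy → Hardy, IsConjugation C ∧ ∀ x, C (W x) = V (C x)

/-- `φ(z) = (a z + b) / (c z + d)` on the disc, with `ad - bc ≠ 0` (denominators cleared). -/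
def IsLinearFractional (φ : ℂ → ℂ) : Prop :=
  ∃ a b c d : ℂ, a * d - b * c ≠ 0 ∧ ∀ z ∈ ball (0 : ℂ) 1, φ z * (c * z + d) = a * z + b

/-- `ψ(z) = 1 / (1 + √(1 - z))` and `φ(z) = (1 - √(1 - z)) / (1 + √(1 - z))` on the disc. -/
def Explicit (ψ φ : ℂ → ℂ) : Prop :=
  ∀ z ∈ ball (0 : ℂ) 1, ψ z = 1 / (1 + (1 - z) ^ (1 / 2 : ℂ)) ∧
    φ z = (1 - (1 - z) ^ (1 / 2 : ℂ)) / (1 + (1 - z) ^ (1 / 2 : ℂ))

/-- There is a bounded complex symmetric weighted composition operator on the Hardy space, with non-zero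
weight and non-constant symbol, whose symbol is not linear fractional. -/
theorem result : IsHardySpace ∧ ∃ ψ φ : ℂ → ℂ,
    Explicit ψ φ ∧ DifferentiableOn ℂ ψ (ball 0 1) ∧ DifferentiableOn ℂ φ (ball 0 1) ∧
    MapsTo φ (ball 0 1) (ball 0 1) ∧ (∃ z ∈ ball (0 : ℂ) 1, ψ z ≠ 0) ∧
    (∃ z ∈ ball (0 : ℂ) 1, ∃ w ∈ ball (0 : ℂ) 1, φ z ≠ φ w) ∧
    ¬ IsLinearFractional φ ∧
    ∃ W : Op, IsWCO ψ φ W ∧ ComplexSymmetric W := by
  have hs : ∀ z ∈ ball (0 : ℂ) 1, (1 - z) ^ (1 / 2 : ℂ) = Pool.Agent.V1197.CW.sq z := by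
    intro z hz
    rw [mem_ball_zero_iff] at hz
    have h : (1 - z) ≠ 0 := by
      intro h
      have : z = 1 := (sub_eq_zero.1 h).symm
      rw [this] at hz
      simp at hz
    rw [Complex.cpow_def_of_ne_zero h, Pool.Agent.V1197.CW.sq]
    congr 1
    ring
  refine ⟨⟨fun a => ⟨ev_diff a, ev_lub a⟩, fun f hf hb => ev_surj f hf hb⟩, psi, phi, fun z hz => ?_, fun z hz => ?_,
    fun z hz => ?_, fun z hz => ?_, ⟨0, mem_ball_self one_pos, psi_ne 0 (by simp)⟩,
    ⟨1 / 2, ?_, 0, mem_ball_self one_pos, ?_⟩, ?_, T, ?_, ?_⟩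
  · rw [hs z hz]
    exact ⟨rfl, rfl⟩
  · exact (psi_diff z (mem_ball_zero_iff.1 hz)).differentiableWithinAt
  · exact (phi_diff z (mem_ball_zero_iff.1 hz)).differentiableWithinAt
  · exact mem_ball_zero_iff.2 (phi_norm z (mem_ball_zero_iff.1 hz))
  · rw [mem_ball_zero_iff]; norm_num
  · rw [phi_zero]
    exact phi_ne_zero (1 / 2) (by norm_num) (by norm_num)
  · rintro ⟨a, b, c, d, hne, h⟩
    exact phi_not_lft ⟨a, b, c, d, hne, fun z hz => h z (mem_ball_zero_iff.2 hz)⟩
  · intro f z hz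
    exact ev_T f z (mem_ball_zero_iff.1 hz)
  · exact ⟨ContinuousLinearMap.adjoint T, fun x y => ContinuousLinearMap.adjoint_inner_left T y x,
      CC, ⟨CC_add, CC_smul, CC_norm, CC_CC⟩, CC_T⟩

end Pool.Agent.Results.MP_d61ac0_an.SquareRootSymbol
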